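import Pool.Agent.P.MP_80f86c_co.Kab.Upper
import Pool.Agent.P.MP_80f86c_co.Kab.Orbit

/-!
With `t = min s a` and `e = (a t - t (t - 1) / 2) / (2 a - 1)`, one has
`mex_{K_s}(m, K_{a,b}) = O(m ^ e)` for all `a, b, s`, and this is the order of magnitude if
`a ≤ 2` and `s < a + b`; if `b > (s - 1) (a - 1)!` and `s ≤ a + 1` or `a = 3`; and if `a = 3`,
`s ≤ r ^ 2 + 1` and `b > 2 (r - 1) ^ 2` for a prime power `r`.
-/

namespace Pool.Agent.Results.MP_80f86c_co.CompleteBipartite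

open SimpleGraph Asymptotics Filter Pool.Agent.P.MP_80f86c_co

theorem result (s a b : ℕ) (hs : 3 ≤ s) (ha : 1 ≤ a) :
    (fun m : ℕ => (mex s m (completeBipartiteGraph (Fin a) (Fin b)) : ℝ)) =O[atTop]
      (fun m : ℕ => (m : ℝ) ^
        ((((a * min s a : ℕ) : ℝ) - ((min s a).choose 2 : ℕ)) / (2 * (a : ℝ) - 1))) ∧
    ((a ≤ 2 ∧ s < a + b) ∨ ((s ≤ a + 1 ∨ a = 3) ∧ (s - 1) * (a - 1).factorial < b) ∨
        (a = 3 ∧ ∃ r : ℕ, IsPrimePow r ∧ s ≤ r ^ 2 + 1 ∧ 2 * (r - 1) ^ 2 < b) →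
      (fun m : ℕ => (mex s m (completeBipartiteGraph (Fin a) (Fin b)) : ℝ)) =Θ[atTop]
        (fun m : ℕ => (m : ℝ) ^
          ((((a * min s a : ℕ) : ℝ) - ((min s a).choose 2 : ℕ)) / (2 * (a : ℝ) - 1)))) := by
  have hE : (((a * min s a : ℕ) : ℝ) - ((min s a).choose 2 : ℕ)) = (Kab.E a s : ℝ) := by
    rw [← Kab.E_add_choose a (min s a) (by omega), ← Kab.E_min]
    push_cast
    ring
  have hone : a ≤ 2 → (Kab.E a s : ℝ) / (2 * (a : ℝ) - 1) = 1 := by
    intro h2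
    rw [Kab.E_min, min_eq_right (by omega)]
    interval_cases a <;> norm_num [Kab.E]
  have hthree : (Kab.E 3 s : ℝ) = 6 := by
    rw [Kab.E_min, min_eq_right hs]
    norm_num [Kab.E]
  rw [hE]
  have hO : (fun m : ℕ => (mex s m (completeBipartiteGraph (Fin a) (Fin b)) : ℝ)) =O[atTop]
      (fun m : ℕ => (m : ℝ) ^ ((Kab.E a s : ℝ) / (2 * (a : ℝ) - 1))) := by
    by_cases h2 : a ≤ 2
    · simp only [hone h2, Real.rpow_one]
      exact mex_isBigO_linear (completeBipartite_le_book a b) (book_simplicial a b)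
        (book_cliqueFree ha h2 b) (by omega)
    · exact Kab.mex_isBigO (by omega) (by omega) b
  refine ⟨hO, fun h => ⟨hO, ?_⟩⟩
  rcases h with ⟨h2, hab⟩ | ⟨h1 | rfl, hb⟩ | ⟨rfl, r, hr, hsr, hb⟩
  · simp only [hone h2, Real.rpow_one]
    exact linear_isBigO_mex_of_connected (by omega)
      (completeBipartite_preconnected ha (by omega)) (by simpa using hab)
  · exact Kab.rpow_isBigO_mex (by omega) hs hb (Kab.E_add_choose a s h1)
  · have := Kab.rpow_isBigO_mex_orbit (a := 3) (by omega) hs hb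
    rw [hthree]
    norm_num at this ⊢
    exact this
  · have := rpow_isBigO_mex_K3b hs hr hsr hb
    rw [hthree]
    norm_num at this ⊢
    exact this

end Pool.Agent.Results.MP_80f86c_co.CompleteBipartite
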