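import Pool.Agent.P.MP_80f86c_co.Fans

/-!
The order of magnitude of `mex_{K_s}(m, C_l)` for every cycle `C_l`, in particular for the even
cycles `C_{2k}` of question Q2.
-/

namespace Pool.Agent.Results.MP_80f86c_co.Cycles

open SimpleGraph Asymptotics Filter Pool.Agent.P.MP_80f86c_co

theorem result (s l : ℕ) (hs : 3 ≤ s) (_hl : 3 ≤ l) :
    (s < l → (fun m : ℕ => (mex s m (cycleGraph l) : ℝ)) =Θ[atTop] (fun m : ℕ => (m : ℝ))) ∧
    (l ≤ s → ∀ m : ℕ, mex s m (cycleGraph l) = 0) := by
  refine ⟨fun h => ⟨?_, ?_⟩, fun h m => ?_⟩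
  · exact mex_isBigO_linear (cycleGraph_le_fan l) (fan_simplicial l) (fan_cliqueFree l) (by omega)
  · exact linear_isBigO_mex_of_connected (by omega) cycleGraph_preconnected (by simpa using h)
  · exact mex_eq_zero (isContained_top_of_card_le _ (by simpa using h)) m

end Pool.Agent.Results.MP_80f86c_co.Cycles
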