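import Pool.Agent.P.MP_80f86c_co.Gen.Coset

/-!
For every `s ≥ 3`: `mex_{K_s}(m, F)` is bounded, or of order `m`, or superlinear, with an explicit
description of the three classes of graphs `F`.
-/

namespace Pool.Agent.Results.MP_80f86c_co.LinearRegime

open SimpleGraph Asymptotics Filter Pool.Agent.P.MP_80f86c_co

theorem result (s : ℕ) (hs : 3 ≤ s) (n : ℕ) (F : SimpleGraph (Fin n)) :
    (InSunflowers s F ∧ ∃ C : ℕ, ∀ m : ℕ, mex s m F ≤ C) ∨
    (¬ InSunflowers s F ∧ InPairTrees s F ∧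
      (fun m : ℕ => (mex s m F : ℝ)) =Θ[atTop] (fun m : ℕ => (m : ℝ))) ∨
    (¬ InPairTrees s F ∧
      (fun m : ℕ => (m : ℝ)) =o[atTop] (fun m : ℕ => (mex s m F : ℝ))) := by
  by_cases h1 : InSunflowers s F
  · exact Or.inl ⟨h1, Gen.mex_le_const hs h1⟩
  by_cases h2 : InPairTrees s F
  · refine Or.inr (Or.inl ⟨h1, h2, ?_, Gen.linear_isBigO hs h1⟩)
    obtain ⟨C, hC⟩ := Gen.mex_le_linear hs h2
    refine IsBigO.of_bound C (Eventually.of_forall fun m => ?_)
    simp only [Real.norm_natCast]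
    exact_mod_cast hC m
  · exact Or.inr (Or.inr ⟨h2, Gen.linear_isLittleO hs h2⟩)

end Pool.Agent.Results.MP_80f86c_co.LinearRegime
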