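import Pool.Agent.P.MP_80f86c_co.Poly.Tiny

/-!
Triangles: `mex_{K_3}(m, F)` is eventually zero, or of order `m`, or at least `m ^ (1 + ε)`, with
an explicit description of the three classes of graphs `F`.
-/

namespace Pool.Agent.Results.MP_80f86c_co.TriangleTrichotomy

open SimpleGraph Asymptotics Filter Pool.Agent.P.MP_80f86c_co

theorem result (n : ℕ) (F : SimpleGraph (Fin n)) :
    (Tiny F ∧ ∀ᶠ m : ℕ in atTop, mex 3 m F = 0) ∨
    (¬ Tiny F ∧ TreewidthLeTwo F ∧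
      (fun m : ℕ => (mex 3 m F : ℝ)) =Θ[atTop] (fun m : ℕ => (m : ℝ))) ∨
    (¬ TreewidthLeTwo F ∧
      ∃ ε : ℝ, 0 < ε ∧ ∀ᶠ m : ℕ in atTop, (m : ℝ) ^ (1 + ε) ≤ (mex 3 m F : ℝ)) := by
  by_cases h : TreewidthLeTwo F
  · obtain ⟨H, hFH, hch, h4⟩ := id h
    by_cases ht : Tiny F
    · exact Or.inl ⟨ht, Poly.mex_tiny ht⟩
    · exact Or.inr (Or.inl ⟨ht, h, mex_isBigO_linear hFH hch.simplicial h4 (by norm_num),
        Poly.linear_isBigO_mex ht⟩)
  · exact Or.inr (Or.inr ⟨h, Poly.mex_poly h⟩)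

end Pool.Agent.Results.MP_80f86c_co.TriangleTrichotomy
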